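import Pool.Agent.D0H17.GE.Defs

set_option autoImplicit false

namespace Pool.Agent.D0H30.GE

open Finset Pool.Agent.D0H17.GE

/-- shift of the scales -/
lemma sf_shift {Λ K c : ℝ} {j T : ℕ} {p : ℕ → ℝ} (h : SF Λ K c j (T + 1) p) :
    SF Λ K c j T (fun i => p (i + 1)) where
  big i hi := h.big (i + 1) (by omega)
  top i hi := h.top (i + 1) (by omega)
  anti i hi := h.anti (i + 1) (by omega)
  lo i hi := h.lo (i + 1) (by omega)
  hi i hi := h.hi (i + 1) (by omega)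
  gap i hi := h.gap (i + 1) (by omega)
  lgap i hi := h.lgap (i + 1) (by omega)

/-- mean value estimate -/
lemma pow_sub_le {c x y : ℝ} (hc : 1 < c) (hy : 0 ≤ y) (hyx : y ≤ x) :
    x ^ c - y ^ c ≤ c * x ^ (c - 1) * (x - y) := by
  rcases hyx.eq_or_lt with rfl | hlt
  · simp
  have hx : 0 < x := lt_of_le_of_lt hy hlt
  -- Bernoulli for y / x
  have h1 : 1 + c * (y / x - 1) ≤ (1 + (y / x - 1)) ^ c :=
    one_add_mul_self_le_rpow_one_add (by have := div_nonneg hy hx.le; linarith) hc.le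
  have h2 : (1 + (y / x - 1)) ^ c = y ^ c / x ^ c := by
    rw [add_sub_cancel, Real.div_rpow hy hx.le]
  rw [h2] at h1
  have hxc : 0 < x ^ c := Real.rpow_pos_of_pos hx c
  have h3 : x ^ c = x ^ (c - 1) * x := by
    rw [← Real.rpow_add_one hx.ne', sub_add_cancel]
  have h4 := mul_le_mul_of_nonneg_right h1 hxc.le
  rw [div_mul_cancel₀ _ hxc.ne'] at h4
  have h5 : (1 + c * (y / x - 1)) * x ^ c = x ^ c + c * x ^ (c - 1) * (y - x) := by
    rw [h3]
    field_simp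
  rw [h5] at h4
  linarith

lemma floor_step {c y P : ℝ} (hc : 1 < c) (hP : 0 ≤ P) (hy : (P + 1) ^ c ≤ y) :
    P ≤ (⌊y ^ (1 / c)⌋₊ : ℝ) ∧ ((⌊y ^ (1 / c)⌋₊ : ℝ)) ≤ y ^ (1 / c) ∧
      0 ≤ y - ((⌊y ^ (1 / c)⌋₊ : ℝ)) ^ c ∧
      y - ((⌊y ^ (1 / c)⌋₊ : ℝ)) ^ c ≤ c * (y ^ (1 / c)) ^ (c - 1) := by
  have hc0 : 0 < c := by linarith
  have hy0 : 0 ≤ y := (Real.rpow_nonneg (by linarith) c).trans hy
  obtain ⟨x, hx⟩ : ∃ x, x = y ^ (1 / c) := ⟨_, rfl⟩
  have hx0 : 0 ≤ x := by rw [hx]; positivity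
  have hxc : x ^ c = y := by
    rw [hx, ← Real.rpow_mul hy0, one_div, inv_mul_cancel₀ hc0.ne', Real.rpow_one]
  rw [← hx]
  have h1 : P + 1 ≤ x := by
    by_contra hlt
    push Not at hlt
    have := Real.rpow_lt_rpow hx0 hlt hc0
    rw [hxc] at this
    linarith
  have h2 : (⌊x⌋₊ : ℝ) ≤ x := Nat.floor_le hx0
  have h3 : x < (⌊x⌋₊ : ℝ) + 1 := Nat.lt_floor_add_one x
  have h4 : (0 : ℝ) ≤ (⌊x⌋₊ : ℝ) := Nat.cast_nonneg _
  refine ⟨by linarith, h2, ?_, ?_⟩
  · rw [← hxc]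
    have := Real.rpow_le_rpow h4 h2 hc0.le
    linarith
  · rw [← hxc]
    refine (pow_sub_le hc h4 h2).trans ?_
    have h5 : 0 ≤ c * x ^ (c - 1) := by positivity
    calc c * x ^ (c - 1) * (x - (⌊x⌋₊ : ℝ)) ≤ c * x ^ (c - 1) * 1 :=
          mul_le_mul_of_nonneg_left (by linarith) h5
      _ = _ := mul_one _

/-- M2 -/
theorem cover (b K Λ c : ℝ) (R t j : ℕ) (p : ℕ → ℝ) (hc : 1 < c) (hcb : c ≤ b + 1) (hR : 4 ≤ R)
    (hK : (b + 1) * (R + 1) ≤ K) (hΛ : 2 * (2 * K) ^ (b + 1) ≤ Λ) (h : SF Λ K c j t p) (w : ℝ)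
    (hw1 : (2 * p 0) ^ c ≤ w) (hw2 : w ≤ (R * p 0) ^ c) :
    ∃ u ∈ XS R (t + 1) p, |w - S c u| ≤ c * (((R : ℝ) + 1) * p t) ^ (c - 1) := by
  have hc0 : 0 < c := by linarith
  have hR' : (4 : ℝ) ≤ R := by exact_mod_cast hR
  have hb : 0 < b := by linarith
  have hKR : (R : ℝ) + 1 ≤ K := by nlinarith
  have hK1 : 1 ≤ K := by linarith
  have hcK : c * (R + 1) ≤ K := by nlinarith
  have h2K : (1 : ℝ) ≤ 2 * K := by linarith
  have hKb : (1 : ℝ) ≤ (2 * K) ^ (b + 1) := Real.one_le_rpow h2K (by linarith)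
  have hΛ2 : 2 ≤ Λ := by linarith
  have hKc : (2 * K) ^ c ≤ Λ / 2 := by
    have := Real.rpow_le_rpow_of_exponent_le h2K hcb
    linarith
  induction t generalizing p w with
  | zero =>
    have hp := h.big 0 le_rfl
    have hp0 : 0 < p 0 := by linarith
    have hw0 : 0 ≤ w := (Real.rpow_nonneg (by linarith) c).trans hw1
    obtain ⟨f1, f2, f3, f4⟩ := floor_step (P := p 0) hc hp0.le
      ((Real.rpow_le_rpow (by linarith) (by linarith) hc0.le).trans hw1)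
    have hx : w ^ (1 / c) ≤ R * p 0 := by
      have := Real.rpow_le_rpow hw0 hw2 (show 0 ≤ 1 / c by positivity)
      rwa [← Real.rpow_mul (by positivity), mul_one_div_cancel hc0.ne', Real.rpow_one] at this
    refine ⟨fun _ => ⌊w ^ (1 / c)⌋₊, ?_, ?_⟩
    · unfold XS
      rw [Fintype.mem_piFinset]
      intro i
      have hi : (i : ℕ) = 0 := by omega
      rw [hi, mem_Icc]
      exact ⟨Nat.ceil_le.2 f1, Nat.le_floor (f2.trans hx)⟩
    · have hS : S c (fun _ : Fin (0 + 1) => ⌊w ^ (1 / c)⌋₊) = ((⌊w ^ (1 / c)⌋₊ : ℝ)) ^ c := by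
        unfold S
        simp
      rw [hS, abs_of_nonneg f3]
      refine f4.trans (mul_le_mul_of_nonneg_left ?_ hc0.le)
      refine Real.rpow_le_rpow (by positivity) (hx.trans ?_) (by linarith)
      exact mul_le_mul_of_nonneg_right (by linarith) hp0.le
  | succ t ih =>
    have hp := h.big 0 (by omega)
    have hp0 : 0 < p 0 := by linarith
    have hq := h.big 1 (by omega)
    have hq0 : 0 < p 1 := by linarith
    have hw0 : 0 ≤ w := (Real.rpow_nonneg (by linarith) c).trans hw1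
    have hlo := h.lo 0 (by omega)
    have hhi := h.hi 0 (by omega)
    rw [zero_add] at hlo hhi
    obtain ⟨A, hA⟩ : ∃ A, A = p 0 ^ (c - 1) := ⟨_, rfl⟩
    have hA0 : 0 < A := by rw [hA]; positivity
    have hAp : p 0 ^ c = A * p 0 := by
      rw [hA, ← Real.rpow_add_one hp0.ne', sub_add_cancel]
    rw [← hA] at hlo hhi
    obtain ⟨B, hB⟩ : ∃ B, B = p 1 ^ c := ⟨_, rfl⟩
    rw [← hB] at hlo hhi
    have h2p1 : (2 * p 1) ^ c = 2 ^ c * B := by rw [hB, Real.mul_rpow (by norm_num) hq0.le]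
    have h2K' : (2 * K) ^ c = 2 ^ c * K ^ c := Real.mul_rpow (by norm_num) (by linarith)
    have h2c : (2 : ℝ) ≤ 2 ^ c := by
      have := Real.rpow_le_rpow_of_exponent_le (show (1 : ℝ) ≤ 2 by norm_num) hc.le
      rwa [Real.rpow_one] at this
    have hKc0 : 0 < K ^ c := by positivity
    -- `(2 p₁) ^ c ≤ p₀ ^ c / 2`
    have e1 : (2 * p 1) ^ c ≤ p 0 ^ c / 2 := by
      rw [h2p1, hAp]
      calc 2 ^ c * B ≤ 2 ^ c * (K ^ c * A) := mul_le_mul_of_nonneg_left hhi (by positivity)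
        _ = (2 * K) ^ c * A := by rw [h2K']; ring
        _ ≤ (p 0 / 2) * A := mul_le_mul_of_nonneg_right (by linarith) hA0.le
        _ = A * p 0 / 2 := by ring
    have e2 : ((3 : ℝ) / 2) ^ c ≤ 2 ^ c - 1 / 2 := by
      have g1 : (2 : ℝ) ^ c = (3 / 2 : ℝ) ^ c * (4 / 3 : ℝ) ^ c := by
        rw [← Real.mul_rpow (by norm_num) (by norm_num)]
        norm_num
      have g2 : (4 / 3 : ℝ) ≤ (4 / 3 : ℝ) ^ c := by
        have := Real.rpow_le_rpow_of_exponent_le (show (1 : ℝ) ≤ 4 / 3 by norm_num) hc.le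
        rwa [Real.rpow_one] at this
      have g3 : (3 / 2 : ℝ) ≤ (3 / 2 : ℝ) ^ c := by
        have := Real.rpow_le_rpow_of_exponent_le (show (1 : ℝ) ≤ 3 / 2 by norm_num) hc.le
        rwa [Real.rpow_one] at this
      rw [g1]
      nlinarith
    have hpc : 0 < p 0 ^ c := by positivity
    have e3 : (p 0 + 1) ^ c ≤ w - (2 * p 1) ^ c := by
      have g1 : (p 0 + 1) ^ c ≤ (3 / 2 * p 0) ^ c :=
        Real.rpow_le_rpow (by linarith) (by linarith) hc0.le
      rw [Real.mul_rpow (by norm_num) hp0.le] at g1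
      rw [Real.mul_rpow (by norm_num) hp0.le] at hw1
      nlinarith
    obtain ⟨y, hy⟩ : ∃ y, y = w - (2 * p 1) ^ c := ⟨_, rfl⟩
    rw [← hy] at e3
    obtain ⟨f1, f2, f3, f4⟩ := floor_step (P := p 0) hc hp0.le e3
    have hyw : y ≤ w := by
      rw [hy]
      have : 0 ≤ (2 * p 1) ^ c := by positivity
      linarith
    have hy0 : 0 ≤ y := (Real.rpow_nonneg (by linarith) c).trans e3
    have hx : y ^ (1 / c) ≤ R * p 0 := by
      have := Real.rpow_le_rpow hy0 (hyw.trans hw2) (show 0 ≤ 1 / c by positivity)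
      rwa [← Real.rpow_mul (by positivity), mul_one_div_cancel hc0.ne', Real.rpow_one] at this
    obtain ⟨n, hn⟩ : ∃ n, n = ⌊y ^ (1 / c)⌋₊ := ⟨_, rfl⟩
    rw [← hn] at f1 f2 f3 f4
    have e4 : c * (y ^ (1 / c)) ^ (c - 1) ≤ c * (R ^ (c - 1) * A) := by
      refine mul_le_mul_of_nonneg_left ?_ hc0.le
      rw [hA, ← Real.mul_rpow (by positivity) hp0.le]
      exact Real.rpow_le_rpow (by positivity) hx (by linarith)
    have e5 : c * R ^ (c - 1) ≤ K ^ c := by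
      have g1 : K ^ c = K ^ (c - 1) * K := by
        rw [← Real.rpow_add_one (by linarith : K ≠ 0), sub_add_cancel]
      rw [g1]
      have g2 : (R : ℝ) ^ (c - 1) ≤ K ^ (c - 1) :=
        Real.rpow_le_rpow (by linarith) (by linarith) (by linarith)
      have g3 : (0 : ℝ) < R ^ (c - 1) := by positivity
      nlinarith
    have e6 : (2 : ℝ) ≤ (R : ℝ) ^ c - 2 ^ c := by
      have g1 : (4 : ℝ) ^ c ≤ (R : ℝ) ^ c := Real.rpow_le_rpow (by norm_num) hR' hc0.le
      have g2 : (4 : ℝ) ^ c = 2 ^ c * 2 ^ c := by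
        rw [← Real.mul_rpow (by norm_num) (by norm_num)]
        norm_num
      have g3 : (2 : ℝ) * 2 ^ c ≤ 2 ^ c * 2 ^ c :=
        mul_le_mul_of_nonneg_right h2c (by positivity)
      linarith
    have hB0 : 0 < B := by rw [hB]; positivity
    have e7 : w - (n : ℝ) ^ c ≤ (R * p 1) ^ c := by
      rw [Real.mul_rpow (by positivity) hq0.le, ← hB]
      have g1 : w - (n : ℝ) ^ c = 2 ^ c * B + (y - (n : ℝ) ^ c) := by rw [hy, h2p1]; ring
      rw [g1]
      have g2 : c * (R ^ (c - 1) * A) ≤ K ^ c * A := by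
        rw [← mul_assoc]
        exact mul_le_mul_of_nonneg_right e5 hA0.le
      have g3 : 2 * B ≤ ((R : ℝ) ^ c - 2 ^ c) * B := mul_le_mul_of_nonneg_right e6 hB0.le
      have g4 : y - (n : ℝ) ^ c ≤ K ^ c * A := f4.trans (e4.trans g2)
      have g5 : K ^ c * A ≤ 2 * B := by linarith
      linarith
    have e8 : (2 * p 1) ^ c ≤ w - (n : ℝ) ^ c := by
      have g1 : w - (n : ℝ) ^ c = (2 * p 1) ^ c + (y - (n : ℝ) ^ c) := by rw [hy]; ring
      rw [g1]
      linarith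
    obtain ⟨u, hu, hu'⟩ := ih (fun i => p (i + 1)) (sf_shift h) (w - (n : ℝ) ^ c) e8 e7
    refine ⟨Fin.cons n u, ?_, ?_⟩
    · unfold XS at hu ⊢
      rw [Fintype.mem_piFinset] at hu ⊢
      intro i
      refine Fin.cases ?_ (fun i => ?_) i
      · rw [Fin.cons_zero, mem_Icc]
        exact ⟨Nat.ceil_le.2 f1, Nat.le_floor (f2.trans hx)⟩
      · rw [Fin.cons_succ]
        exact hu i
    · have hS : S c (Fin.cons n u : Fin (t + 1 + 1) → ℕ) = (n : ℝ) ^ c + S c u := by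
        unfold S
        rw [Fin.sum_univ_succ, Fin.cons_zero]
        simp only [Fin.cons_succ]
      rw [hS, ← sub_sub]
      exact hu'

end Pool.Agent.D0H30.GE
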